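import Pool.Agent.TH127.PT.Defs
import Mathlib

/-!
# Reindexing of subtorsors
-/

set_option autoImplicit false

open Matrix

namespace Run7.h893.AT

open Pool.Agent.TH127.PT

variable {M M' : Type} [Fintype M] [DecidableEq M] [Fintype M'] [DecidableEq M']

theorem sub_reindex (σ : M' ≃ M) {K : Subfield ℂ} {T : Set (Matrix M M ℂ)} (hT : IsSubtorsor K T) :
    IsSubtorsor K {X : Matrix M' M' ℂ | X.submatrix σ.symm σ.symm ∈ T} := by
  obtain ⟨I, hI, hI2⟩ := hT.algebraic
  have hf : Function.Injective (Prod.map σ.symm σ.symm : M × M → M' × M') :=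
    Function.Injective.prodMap σ.symm.injective σ.symm.injective
  refine ⟨fun x hx => ?_, fun x hx y hy z hz => ?_, MvPolynomial.rename (Prod.map σ.symm σ.symm) '' I, ?_, fun x => ?_⟩
  · exact (Matrix.isUnit_submatrix_equiv σ.symm σ.symm).1 (hT.isUnit _ hx)
  · show (x * y⁻¹ * z).submatrix σ.symm σ.symm ∈ T
    have h1 : (x * y⁻¹ * z).submatrix σ.symm σ.symm =
        x.submatrix σ.symm σ.symm * (y.submatrix σ.symm σ.symm)⁻¹ * z.submatrix σ.symm σ.symm := by
      rw [Matrix.inv_submatrix_equiv, Matrix.submatrix_mul_equiv, Matrix.submatrix_mul_equiv]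
    rw [h1]
    exact hT.torsor _ hx _ hy _ hz
  · rintro _ ⟨p, hp, rfl⟩ m
    by_cases hm : ∃ u : M × M →₀ ℕ, u.mapDomain (Prod.map σ.symm σ.symm) = m
    · obtain ⟨u, rfl⟩ := hm
      rw [MvPolynomial.coeff_rename_mapDomain _ hf]
      exact hI p hp u
    · push Not at hm
      rw [MvPolynomial.coeff_rename_eq_zero _ _ _ fun u hu => absurd hu (hm u)]
      exact K.zero_mem
  · show x.submatrix σ.symm σ.symm ∈ T ↔ _
    rw [hI2, Matrix.isUnit_submatrix_equiv]
    refine and_congr_right fun _ => ?_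
    rw [Set.forall_mem_image]
    refine forall₂_congr fun p _ => ?_
    rw [MvPolynomial.eval_rename]
    rfl

end Run7.h893.AT
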